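import Pool.Agent.Y982.RP.Row
import Pool.Agent.Y982.RP.Lat

set_option autoImplicit false
open MeasureTheory ProbabilityTheory Filter Topology
open scoped ENNReal

namespace Pool.Agent.Results.MP_12f94a_pr.RowsOfGraphs

open Pool.Agent.H563R3.FPP
open Pool.Agent.Y982.RP

/-- **Part 1.** Every infinite connected graph `H` of bounded degree (of any growth, satisfying any
isoperimetric inequality) sits isometrically, as an induced subgraph, in a connected graph `G` whose
degrees are larger by at most `2`, whose balls of radius `n` have at most `2 n + 1` times as many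
points as those of `H`, which satisfies every isoperimetric inequality of dimension bigger than `1`
that `H` satisfies, and in which first passage percolation in a hostile environment has no regime of
strong survival, whatever the starting vertex: for all `λ > 0` and `μ ∈ (0,1)`, almost surely every
vertex gets occupied and `FPP_λ` survives.

**Part 2.** For every `D ≥ 2` there is such a graph of degree at most `2 D + 2`, of polynomial
growth with `|B(o,n)| ≤ 3 ^ (D + 1) n ^ (D + 1)` and isoperimetric dimension at least `D`. -/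
theorem result :
    (∀ (U : Type) [Countable U] [Infinite U] (H : SimpleGraph U) (Δ : ℕ), H.Connected →
      (∀ u, (H.neighborSet u).encard ≤ Δ) →
      ∃ G : SimpleGraph (ℤ × U),
        G.Connected ∧
        (∀ v, (G.neighborSet v).encard ≤ ((Δ + 2 : ℕ) : ℕ∞)) ∧
        (∀ x u v, G.Adj (x, u) (x, v) ↔ H.Adj u v) ∧
        (∀ x u v, G.dist (x, u) (x, v) = H.dist u v) ∧
        (∀ n M : ℕ, (∀ u, ({w | H.dist u w ≤ n} : Set U).encard ≤ (M : ℕ∞)) →
          ∀ o, ({w | G.dist o w ≤ n} : Set (ℤ × U)).encard ≤ (((2 * n + 1) * M : ℕ) : ℕ∞)) ∧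
        (∀ d : ℝ, 1 < d → Isoperimetric H d → Isoperimetric G d) ∧
        (∀ (o : ℤ × U) (lam μ : ℝ), 0 < lam → 0 < μ → μ < 1 →
          ∀ᵐ ω ∂(law (ℤ × U) lam μ), (∀ v, ∃ i, Occ G o ω i v) ∧ Survives G o ω Kind.lam) ∧
        (∀ o, ¬ HasStrongSurvival G o)) ∧
    (∀ D : ℕ, 2 ≤ D → ∃ G : SimpleGraph (ℤ × (Fin D → ℤ)),
        G.Connected ∧
        (∀ v, (G.neighborSet v).encard ≤ ((2 * D + 2 : ℕ) : ℕ∞)) ∧
        (∀ o, ∀ n : ℕ, 1 ≤ n → ({w | G.dist o w ≤ n} : Set (ℤ × (Fin D → ℤ))).encard ≤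
          ((3 ^ (D + 1) * n ^ (D + 1) : ℕ) : ℕ∞)) ∧
        (∀ o, PolyGrowth G o) ∧
        Isoperimetric G D ∧ (D : ℝ≥0∞) ≤ isoDim G ∧ 1 < isoDim G ∧
        (∀ (o : ℤ × (Fin D → ℤ)) (lam μ : ℝ), 0 < lam → 0 < μ → μ < 1 →
          ∀ᵐ ω ∂(law (ℤ × (Fin D → ℤ)) lam μ),
            (∀ v, ∃ i, Occ G o ω i v) ∧ Survives G o ω Kind.lam) ∧
        (∀ o, ¬ HasStrongSurvival G o)) := by
  refine ⟨?_, ?_⟩
  · intro U _ _ H Δ hc hΔ
    obtain ⟨p⟩ : Nonempty U := inferInstance
    exact ⟨row H p, row_connected p hc, degree_le p hΔ, adj_layer H p, dist_layer p hc,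
      fun n M hM => ball_encard p hc n M hM, fun d hd h => iso_row H p hd h,
      fun o _ _ hlam h0 h1 => lam_survives p hc hΔ o hlam h0 h1, no_strong p hc hΔ⟩
  · intro D hD
    have : Nonempty (Fin D) := ⟨⟨0, by omega⟩⟩
    have : Infinite (Fin D → ℤ) := Infinite.of_injective (fun z : ℤ => fun _ : Fin D => z)
      (fun a b h => congrFun h ⟨0, by omega⟩)
    have hball : ∀ o, ∀ n : ℕ, 1 ≤ n →
        ({w | (row (lat D) 0).dist o w ≤ n} : Set (ℤ × (Fin D → ℤ))).encard ≤
          ((3 ^ (D + 1) * n ^ (D + 1) : ℕ) : ℕ∞) := by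
      intro o n hn
      refine (ball_encard 0 lat_connected n ((2 * n + 1) ^ D) (fun u => lat_ball u n) o).trans ?_
      have h1 : (2 * n + 1) * (2 * n + 1) ^ D ≤ 3 ^ (D + 1) * n ^ (D + 1) := by
        rw [← pow_succ', ← mul_pow]
        exact Nat.pow_le_pow_left (by omega) _
      exact_mod_cast h1
    have hD1 : (1 : ℝ) < D := by exact_mod_cast (by omega : 1 < D)
    have hiso : Isoperimetric (row (lat D) 0) D := iso_row (lat D) 0 hD1 (lat_iso hD)
    have hdim : (D : ℝ≥0∞) ≤ isoDim (row (lat D) 0) := by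
      unfold isoDim
      rw [← ENNReal.ofReal_natCast]
      exact le_iSup₂_of_le (f := fun (d : ℝ) (_ : 1 ≤ d ∧ Isoperimetric (row (lat D) 0) d) =>
        ENNReal.ofReal d) (D : ℝ) ⟨hD1.le, hiso⟩ le_rfl
    refine ⟨row (lat D) 0, row_connected 0 lat_connected, degree_le 0 lat_degree, hball,
      fun o => ⟨3 ^ (D + 1), D + 1, hball o⟩, hiso, hdim, lt_of_lt_of_le ?_ hdim,
      fun o _ _ hlam h0 h1 => lam_survives 0 lat_connected lat_degree o hlam h0 h1,
      no_strong 0 lat_connected lat_degree⟩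
    exact_mod_cast (by omega : 1 < D)

end Pool.Agent.Results.MP_12f94a_pr.RowsOfGraphs
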